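import Mathlib
import Pool.Agent.H932R5.Simplex

set_option autoImplicit false

/-!
# Compressions in every characteristic

The compression step of `H932R5` for an arbitrary family of ideals which is stable under the
substitutions `x_j ↦ x_0 ^ ρ + t x_j`, over an infinite field of arbitrary characteristic. The only
binomial matrices which occur are those of consecutive integers, which are invertible over `ℤ`.
-/

namespace Pool.Agent.H519R3.AC

open MvPolynomial Pool.Agent.H932R5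

universe u v

variable {K : Type u} [Field K] {E : ℕ}

/-- The matrix of the binomial coefficients of consecutive integers is invertible in every
characteristic. -/
theorem exists_contig_inverse (s q : ℕ) : ∃ e : Fin (q + 1) → K, ∀ b ≤ q,
    ∑ a : Fin (q + 1), e a * (((s + (a : ℕ)).choose b : ℕ) : K) = if b = q then 1 else 0 := by
  induction q with
  | zero =>
    refine ⟨fun _ => 1, fun b hb => ?_⟩
    have hb0 : b = 0 := by omega
    subst hb0
    simp
  | succ q ih =>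
    obtain ⟨e, he⟩ := ih
    refine ⟨fun a => (Fin.cons 0 e : Fin (q + 2) → K) a - (Fin.snoc e 0 : Fin (q + 2) → K) a,
      fun b hb => ?_⟩
    have h1 : ∑ a : Fin (q + 1 + 1), ((Fin.cons 0 e : Fin (q + 2) → K) a -
          (Fin.snoc e 0 : Fin (q + 2) → K) a) * (((s + (a : ℕ)).choose b : ℕ) : K) =
        ∑ a : Fin (q + 1), e a * ((((s + (a : ℕ) + 1).choose b : ℕ) : K) -
          (((s + (a : ℕ)).choose b : ℕ) : K)) := by
      simp only [sub_mul, mul_sub]
      rw [Finset.sum_sub_distrib, Finset.sum_sub_distrib]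
      congr 1
      · rw [Fin.sum_univ_succ]
        simp only [Fin.cons_zero, zero_mul, zero_add, Fin.cons_succ, Fin.val_succ]
        rfl
      · rw [Fin.sum_univ_castSucc]
        simp
    rw [h1]
    rcases b with _ | b
    · simp
    · have h2 : ∀ a : Fin (q + 1), ((((s + (a : ℕ) + 1).choose (b + 1) : ℕ) : K) -
          (((s + (a : ℕ)).choose (b + 1) : ℕ) : K)) = (((s + (a : ℕ)).choose b : ℕ) : K) := by
        intro a
        rw [Nat.choose_succ_succ]
        push_cast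
        ring
      simp only [h2]
      rw [he b (by omega)]
      simp

/-- A family of ideals stable under the substitutions `x_j ↦ x_0 ^ ρ + t x_j`. -/
structure Fam (K : Type u) [Field K] (E : ℕ) where
  /-- The parameters. -/
  ι : Type v
  /-- The ideals. -/
  I : ι → Ideal (MvPolynomial (Fin (E + 1)) K)
  /-- Stability. -/
  sub_le : ∀ (ρ : ℕ) (j : Fin (E + 1)) (t : K) (x : ι), j ≠ 0 → t ≠ 0 →
    ∃ y : ι, I y ≤ (I x).comap (sub ρ j t)

/-- For some member of the family, the span of the monomials in `M` has at least `N` elements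
linearly independent modulo the ideal. -/
def FRk (𝓕 : Fam.{u, v} K E) (M : Set (Fin (E + 1) →₀ ℕ)) (N : ℕ) : Prop :=
  ∃ x : 𝓕.ι, ∃ v : Fin N → MvPolynomial (Fin (E + 1)) K,
    (∀ i, v i ∈ mspan K M) ∧ ∀ c : Fin N → K, ∑ i, c i • v i ∈ 𝓕.I x → ∀ i, c i = 0

/-- For some member of the family, no nonzero polynomial supported in `M` lies in the ideal. -/
def FFull (𝓕 : Fam.{u, v} K E) (M : Set (Fin (E + 1) →₀ ℕ)) : Prop :=
  ∃ x : 𝓕.ι, ∀ f ∈ 𝓕.I x, (∀ α, coeff α f ≠ 0 → α ∈ M) → f = 0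

theorem FRk.mono {𝓕 : Fam.{u, v} K E} {M M' : Set (Fin (E + 1) →₀ ℕ)} {N : ℕ}
    (h : M ⊆ M') (hR : FRk 𝓕 M N) : FRk 𝓕 M' N := by
  obtain ⟨x, v, hv, hli⟩ := hR
  exact ⟨x, v, fun i => mspan_mono h (hv i), hli⟩

theorem FFull.mono {𝓕 : Fam.{u, v} K E} {M M' : Set (Fin (E + 1) →₀ ℕ)} (h : M ⊆ M')
    (hF : FFull 𝓕 M') : FFull 𝓕 M := by
  obtain ⟨x, hx⟩ := hF
  exact ⟨x, fun f hf hM => hx f hf fun α hα => h (hM α hα)⟩

/-- Transfer of ranks along a one-parameter family of substitutions. -/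
theorem FRk.transfer [Infinite K] {𝓕 : Fam.{u, v} K E} {M M' : Set (Fin (E + 1) →₀ ℕ)}
    {N : ℕ} (B : ℕ) (ψ : K → MvPolynomial (Fin (E + 1)) K →ₐ[K] MvPolynomial (Fin (E + 1)) K)
    (hI : ∀ t : K, t ≠ 0 → ∀ x' : 𝓕.ι, ∃ x : 𝓕.ι, 𝓕.I x ≤ (𝓕.I x').comap (ψ t))
    (hM : ∀ p ∈ M', ∃ u : ℕ → MvPolynomial (Fin (E + 1)) K, u 0 = monomial p (1 : K) ∧
      ∀ t : K, t ≠ 0 → ∑ k ∈ Finset.range (B + 1), t ^ k • u k ∈
        (mspan K M).map (ψ t).toLinearMap)
    (hR : FRk 𝓕 M' N) : FRk 𝓕 M N := by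
  classical
  obtain ⟨x', v, hv, hli⟩ := hR
  have hgood : ∀ f ∈ mspan K M', ∃ u : ℕ → MvPolynomial (Fin (E + 1)) K, u 0 = f ∧
      ∀ t : K, t ≠ 0 → ∑ k ∈ Finset.range (B + 1), t ^ k • u k ∈
        (mspan K M).map (ψ t).toLinearMap := by
    intro f hf
    refine Submodule.span_induction ?_ ?_ ?_ ?_ hf
    · rintro _ ⟨p, hp, rfl⟩
      exact hM p hp
    · exact ⟨fun _ => 0, rfl, fun t _ => by simp⟩
    · rintro a b _ _ ⟨wa, ha0, ha⟩ ⟨wb, hb0, hb⟩
      refine ⟨fun k => wa k + wb k, by simp only [ha0, hb0], fun t ht => ?_⟩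
      have := Submodule.add_mem _ (ha t ht) (hb t ht)
      rw [← Finset.sum_add_distrib] at this
      simpa only [smul_add] using this
    · rintro c a _ ⟨wa, ha0, ha⟩
      refine ⟨fun k => c • wa k, by simp only [ha0], fun t ht => ?_⟩
      have := Submodule.smul_mem _ c (ha t ht)
      rw [Finset.smul_sum] at this
      simpa only [smul_comm c] using this
  choose u hu0 hu using fun i => hgood (v i) (hv i)
  obtain ⟨W, hW⟩ : ∃ W : Fin N → ℕ → MvPolynomial (Fin (E + 1)) K ⧸ 𝓕.I x',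
      ∀ i k, W i k = Ideal.Quotient.mkₐ K (𝓕.I x') (u i k) := ⟨_, fun _ _ => rfl⟩
  have h0 : LinearIndependent K (fun j => W j 0) := by
    simp only [hW, hu0]
    exact (li_mk_iff _ _).2 hli
  obtain ⟨t, ht, hli'⟩ := H932R2.exists_ne_zero_li B W h0
  have hli'' : ∀ c : Fin N → K, ∑ i, c i • (∑ k ∈ Finset.range (B + 1), t ^ k • u i k) ∈
      𝓕.I x' → ∀ i, c i = 0 := by
    intro c hc
    refine Fintype.linearIndependent_iff.1 hli' c ?_
    have h1 : Ideal.Quotient.mkₐ K (𝓕.I x')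
        (∑ i, c i • (∑ k ∈ Finset.range (B + 1), t ^ k • u i k)) = 0 := by
      rw [Ideal.Quotient.mkₐ_eq_mk, Ideal.Quotient.eq_zero_iff_mem]
      exact hc
    rw [← h1, map_sum]
    refine Finset.sum_congr rfl fun i _ => ?_
    rw [map_smul, map_sum]
    congr 1
    exact Finset.sum_congr rfl fun k _ => by rw [hW, map_smul]
  choose u' hu' hu'' using fun i => Submodule.mem_map.1 (hu i t ht)
  obtain ⟨x, hle⟩ := hI t ht x'
  refine ⟨x, u', hu', fun c hc => hli'' c ?_⟩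
  have h1 := hle hc
  rw [Ideal.mem_comap, map_sum] at h1
  convert h1 using 2 with i
  rw [map_smul, ← hu'' i]
  rfl

/-- The compression step, for ranks. -/
theorem FRk.step [Infinite K] {𝓕 : Fam.{u, v} K E} {M : Set (Fin (E + 1) →₀ ℕ)} {N : ℕ}
    {ρ : ℕ} (hρ : 0 < ρ) {j : Fin (E + 1)} (hj : j ≠ 0) (B : ℕ) (hB : ∀ p ∈ M, p j ≤ B)
    (hcl : ∀ p ∈ M, ρ ≤ p 0 → up p j (p 0 - ρ) (p j + 1) ∈ M)
    (hR : FRk 𝓕 {p | tau ρ j p ∈ M} N) : FRk 𝓕 M N := by
  classical
  refine FRk.transfer B (sub ρ j) (fun t ht x' => 𝓕.sub_le ρ j t x' hj ht) (fun p hp => ?_) hR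
  have hp : tau ρ j p ∈ M := hp
  obtain ⟨q, hq⟩ : ∃ q, q = p j := ⟨_, rfl⟩
  obtain ⟨c, hc⟩ : ∃ c, c = p 0 + ρ * q := ⟨_, rfl⟩
  have hmem : ∀ k ≤ q, up p j (c - ρ * (p 0 / ρ + k)) (p 0 / ρ + k) ∈ M := by
    intro k
    induction k with
    | zero =>
      intro _
      have e : up p j (c - ρ * (p 0 / ρ + 0)) (p 0 / ρ + 0) = tau ρ j p := by
        unfold tau
        rw [add_zero, hc, ← hq]
        have := Nat.mod_add_div (p 0) ρ
        congr 1
        omega
      rw [e]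
      exact hp
    | succ k ih =>
      intro hk
      have h1 := ih (by omega)
      have e2 : ρ * (p 0 / ρ + k) = ρ * (p 0 / ρ) + ρ * k := by ring
      have e3 : ρ * (p 0 / ρ + (k + 1)) = ρ * (p 0 / ρ) + ρ * k + ρ := by ring
      have h4 : ρ * (k + 1) ≤ ρ * q := Nat.mul_le_mul_left _ hk
      have e4 : ρ * (k + 1) = ρ * k + ρ := by ring
      have := Nat.mod_add_div (p 0) ρ
      have h2 := hcl _ h1 (by
        rw [up_zero _ hj]
        omega)
      rw [up_zero _ hj, up_self, up_up _ hj] at h2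
      have e : c - ρ * (p 0 / ρ + (k + 1)) = c - ρ * (p 0 / ρ + k) - ρ := by omega
      rw [e]
      exact h2
  obtain ⟨e, he⟩ := exists_contig_inverse (K := K) (p 0 / ρ) q
  have hmemc : ∀ a : Fin (q + 1), ρ * (p 0 / ρ + (a : ℕ)) ≤ c := by
    intro a
    have h1 : ρ * (p 0 / ρ + (a : ℕ)) = ρ * (p 0 / ρ) + ρ * a := by ring
    have h2 : ρ * (a : ℕ) ≤ ρ * q := Nat.mul_le_mul_left _ (Nat.lt_succ_iff.1 a.2)
    have := Nat.mod_add_div (p 0) ρ
    omega
  have hmemB : ∀ a : Fin (q + 1), p 0 / ρ + (a : ℕ) ≤ B := by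
    intro a
    have := hB _ (hmem a (Nat.lt_succ_iff.1 a.2))
    rwa [up_self] at this
  refine ⟨fun k => (∑ a, e a * (((p 0 / ρ + (a : ℕ)).choose (q + k) : ℕ) : K)) •
    monomial (up p j (c - ρ * (q + k)) (q + k)) 1, ?_, fun t ht => ?_⟩
  · beta_reduce
    simp only [add_zero]
    rw [he q le_rfl, if_pos rfl, one_smul]
    have e : up p j (c - ρ * q) q = p := up_eta _ hj (by omega) hq
    rw [e]
  · have key : sub ρ j t (∑ a : Fin (q + 1), e a •
          monomial (up p j (c - ρ * (p 0 / ρ + (a : ℕ))) (p 0 / ρ + (a : ℕ))) 1) =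
        t ^ q • ∑ k ∈ Finset.range (B + 1), t ^ k •
          ((∑ a, e a * (((p 0 / ρ + (a : ℕ)).choose (q + k) : ℕ) : K)) •
            monomial (up p j (c - ρ * (q + k)) (q + k)) 1) := by
      rw [map_sum]
      have h1 : ∀ a : Fin (q + 1), sub ρ j t (e a •
          monomial (up p j (c - ρ * (p 0 / ρ + (a : ℕ))) (p 0 / ρ + (a : ℕ))) 1) =
          ∑ b ∈ Finset.range (q + (B + 1)),
            (t ^ b * (e a * (((p 0 / ρ + (a : ℕ)).choose b : ℕ) : K))) •
            monomial (up p j (c - ρ * b) b) 1 := by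
        intro a
        rw [map_smul, sub_up ρ p hj t c _ (hmemc a) (q + B) (by have := hmemB a; omega),
          Finset.smul_sum]
        refine Finset.sum_congr rfl fun b _ => ?_
        rw [smul_smul]
        congr 1
        ring
      simp only [h1]
      rw [Finset.sum_comm, Finset.sum_range_add]
      have h2 : ∑ b ∈ Finset.range q, ∑ a : Fin (q + 1),
            (t ^ b * (e a * (((p 0 / ρ + (a : ℕ)).choose b : ℕ) : K))) •
            (monomial (up p j (c - ρ * b) b) (1 : K)) = 0 := by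
        refine Finset.sum_eq_zero fun b hb => ?_
        rw [Finset.mem_range] at hb
        rw [← Finset.sum_smul, ← Finset.mul_sum, he b hb.le, if_neg (by omega), mul_zero,
          zero_smul]
      rw [h2, zero_add, Finset.smul_sum]
      refine Finset.sum_congr rfl fun k _ => ?_
      rw [← Finset.sum_smul, ← Finset.mul_sum, smul_smul, smul_smul]
      congr 1
      ring
    have key' : ∑ k ∈ Finset.range (B + 1), t ^ k •
          ((∑ a, e a * (((p 0 / ρ + (a : ℕ)).choose (q + k) : ℕ) : K)) •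
            monomial (up p j (c - ρ * (q + k)) (q + k)) 1) =
        (t ^ q)⁻¹ • sub ρ j t (∑ a : Fin (q + 1), e a •
          monomial (up p j (c - ρ * (p 0 / ρ + (a : ℕ))) (p 0 / ρ + (a : ℕ))) 1) := by
      rw [key, smul_smul, inv_mul_cancel₀ (pow_ne_zero _ ht), one_smul]
    rw [key', ← map_smul]
    refine Submodule.mem_map_of_mem (Submodule.smul_mem _ _ (Submodule.sum_mem _ fun a _ =>
      Submodule.smul_mem _ _ (Submodule.subset_span ⟨_, hmem a (Nat.lt_succ_iff.1 a.2), rfl⟩)))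

theorem FFull.rk {𝓕 : Fam.{u, v} K E} {M : Finset (Fin (E + 1) →₀ ℕ)}
    (h : FFull 𝓕 (↑M : Set (Fin (E + 1) →₀ ℕ))) :
    FRk 𝓕 (↑M : Set (Fin (E + 1) →₀ ℕ)) M.card := by
  classical
  obtain ⟨x, hx⟩ := h
  refine ⟨x, fun i => monomial (enumM M i) 1, fun i => Submodule.subset_span
    ⟨_, enumM_mem M i, rfl⟩, fun c hc i => ?_⟩
  have h1 := hx _ hc (fun α hα => ?_)
  · have h2 := coeff_sum_enum M c i
    rw [h1, coeff_zero] at h2
    exact h2.symm
  · have h3 : ∑ i, c i • (monomial (enumM M i) (1 : K)) ∈ mspan K (↑M : Set (Fin (E + 1) →₀ ℕ)) :=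
      Submodule.sum_mem _ fun i _ => Submodule.smul_mem _ _ (Submodule.subset_span
        ⟨_, enumM_mem M i, rfl⟩)
    exact mem_mspan.1 h3 α hα

theorem FRk.full {𝓕 : Fam.{u, v} K E} {M : Finset (Fin (E + 1) →₀ ℕ)}
    (hR : FRk 𝓕 (↑M : Set (Fin (E + 1) →₀ ℕ)) M.card) :
    FFull 𝓕 (↑M : Set (Fin (E + 1) →₀ ℕ)) := by
  classical
  obtain ⟨x, v, hv, hli⟩ := hR
  refine ⟨x, fun f hf hM => ?_⟩
  have h0 : ∀ c : Fin M.card → K, ∑ i, c i • (monomial (enumM M i) (1 : K)) ∈ 𝓕.I x →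
      ∀ i, c i = 0 := by
    rw [← li_mk_iff] at hli ⊢
    refine li_of_li_in_span _ _ hli fun i => ?_
    have h1 := hv i
    rw [mspan_eq_range] at h1
    have h2 := Submodule.mem_map_of_mem (f := (Ideal.Quotient.mkₐ K (𝓕.I x)).toLinearMap) h1
    rw [Submodule.map_span, ← Set.range_comp] at h2
    exact h2
  have h1 : f ∈ mspan K (↑M : Set (Fin (E + 1) →₀ ℕ)) := mem_mspan.2 hM
  rw [mspan_eq_range, Submodule.mem_span_range_iff_exists_fun] at h1
  obtain ⟨c, rfl⟩ := h1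
  have h2 := h0 c hf
  exact Finset.sum_eq_zero fun i _ => by rw [h2 i, zero_smul]

/-- The compression step, for emptiness. -/
theorem FFull.step [Infinite K] {𝓕 : Fam.{u, v} K E} {M : Set (Fin (E + 1) →₀ ℕ)}
    (hfin : M.Finite) {ρ : ℕ} (hρ : 0 < ρ) {j : Fin (E + 1)} (hj : j ≠ 0)
    (hcl : ∀ p ∈ M, ρ ≤ p 0 → up p j (p 0 - ρ) (p j + 1) ∈ M)
    (hR : FFull 𝓕 {p | tau ρ j p ∈ M}) : FFull 𝓕 M := by
  classical
  obtain ⟨M, rfl⟩ := hfin.exists_finset_coe
  have h1 : ({p | tau ρ j p ∈ (↑M : Set (Fin (E + 1) →₀ ℕ))} : Set (Fin (E + 1) →₀ ℕ)) =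
      (↑(M.image (tau ρ j)) : Set (Fin (E + 1) →₀ ℕ)) := by
    ext p
    rw [Finset.coe_image]
    constructor
    · intro hp
      exact ⟨_, hp, tau_tau hρ hj p⟩
    · rintro ⟨q, hq, rfl⟩
      show tau ρ j (tau ρ j q) ∈ (↑M : Set (Fin (E + 1) →₀ ℕ))
      rw [tau_tau hρ hj]
      exact hq
  have h2 : (M.image (tau ρ j)).card = M.card := by
    refine Finset.card_image_of_injective _ fun a b hab => ?_
    rw [← tau_tau hρ hj a, hab, tau_tau hρ hj]
  rw [h1] at hR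
  have h3 := hR.rk
  rw [h2] at h3
  refine FRk.full (FRk.step hρ hj (M.sup fun p => p j)
    (fun p hp => Finset.le_sup (f := fun p => p j) hp) hcl ?_)
  rw [h1]
  exact h3

/-- One step, for emptiness. -/
theorem FFull.sx [Infinite K] {𝓕 : Fam.{u, v} K E} {a : Fin (E + 1) → ℝ}
    (ha : ∀ i, 0 < a i) {c : ℝ} {j : Fin (E + 1)} (hj : j ≠ 0) {ρ : ℕ}
    (hρ : 0 < ρ) (h : a j ≤ ρ * a 0)
    (hF : FFull 𝓕 (Sx (nw a j (a j / ρ) (ρ * a 0)) c)) : FFull 𝓕 (Sx a c) :=
  FFull.step (finite_Sx ha c) hρ hj (Sx_closed hj h) (hF.mono (Sx_upper hj hρ h))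

/-- One step, for ranks. -/
theorem FRk.sx [Infinite K] {𝓕 : Fam.{u, v} K E} {N : ℕ} {a : Fin (E + 1) → ℝ}
    (ha : ∀ i, 0 < a i) {c : ℝ} {j : Fin (E + 1)} (hj : j ≠ 0) {ρ : ℕ}
    (hρ : 0 < ρ) (h : a j ≤ ρ * a 0)
    (hF : FRk 𝓕 (Sx (nw a j (a j / ρ) (ρ * a 0)) (c - (ρ * a 0 - a j))) N) :
    FRk 𝓕 (Sx a c) N := by
  refine FRk.step hρ hj ⌊c / a j⌋₊ (fun p hp => ?_) (Sx_closed hj h)
    (hF.mono (Sx_lower hj hρ h))
  have h1 := le_of_mem_Sx ha hp j
  refine Nat.le_floor ?_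
  rw [le_div_iff₀ (ha j), mul_comm]
  exact h1

end Pool.Agent.H519R3.AC
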