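import Mathlib
import Pool.Agent.H519R3.AC.Phases
import Pool.Agent.H932R5.Final
import Pool.Agent.H932R3.Collide
import Pool.Agent.H932R3.Empty

set_option autoImplicit false

/-!
# Collisions in every characteristic
-/

namespace Pool.Agent.H519R3.AC

open Polynomial

universe u

variable {K : Type u} [Field K]

/-- The polynomials in two variables as polynomials in `y` with coefficients in `K[x]`. -/
noncomputable def Phi (K : Type u) [Field K] : MvPolynomial (Fin 2) K →ₐ[K] K[X][X] :=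
  MvPolynomial.aeval ![C X, X]

theorem Phi_X0 : Phi K (MvPolynomial.X 0) = C X := by simp [Phi]

theorem Phi_X1 : Phi K (MvPolynomial.X 1) = X := by simp [Phi]

theorem Phi_C (a : K) : Phi K (MvPolynomial.C a) = C (C a) := by
  have := (Phi K).commutes a
  exact this

theorem Phi_monomial (s : Fin 2 →₀ ℕ) (a : K) :
    Phi K (MvPolynomial.monomial s a) = a • Pool.Agent.H932R2.mon K (s 0, s 1) := by
  rw [MvPolynomial.monomial_eq, map_mul, Phi_C, Finsupp.prod_fintype _ _ (fun i => pow_zero _),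
    map_prod, Fin.prod_univ_two, map_pow, map_pow, Phi_X0, Phi_X1, Pool.Agent.H932R2.mon, C_pow,
    Algebra.smul_def]
  rfl

/-- The exponent with given entries. -/
noncomputable def fs (i l : ℕ) : Fin 2 →₀ ℕ := Finsupp.equivFunOnFinite.symm ![i, l]

theorem fs_eq (s : Fin 2 →₀ ℕ) (i l : ℕ) : (s 0, s 1) = (i, l) ↔ s = fs i l := by
  constructor
  · intro h
    rw [Prod.mk.injEq] at h
    ext j
    fin_cases j
    · exact h.1
    · exact h.2
  · rintro rfl
    rfl

theorem Phi_coeff (f : MvPolynomial (Fin 2) K) (i l : ℕ) :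
    ((Phi K f).coeff l).coeff i = MvPolynomial.coeff (fs i l) f := by
  classical
  conv_lhs => rw [f.as_sum, map_sum, finsetSum_coeff, finsetSum_coeff]
  have h : ∀ s ∈ f.support, ((Phi K (MvPolynomial.monomial s (MvPolynomial.coeff s f))).coeff
      l).coeff i = if s = fs i l then MvPolynomial.coeff s f else 0 := by
    intro s _
    rw [Phi_monomial, coeff_smul, coeff_smul, Pool.Agent.H932R2.coeff_mon, smul_eq_mul]
    by_cases hs : s = fs i l
    · rw [if_pos ((fs_eq s i l).2 hs), if_pos hs, mul_one]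
    · rw [if_neg (fun h => hs ((fs_eq s i l).1 h)), if_neg hs, mul_zero]
  rw [Finset.sum_congr rfl h, Finset.sum_ite_eq']
  split_ifs with h1
  · rfl
  · exact (MvPolynomial.notMem_support_iff.1 h1).symm

theorem Phi_inj {f : MvPolynomial (Fin 2) K} (h : Phi K f = 0) : f = 0 := by
  ext s
  have h1 := Phi_coeff f (s 0) (s 1)
  rw [h, coeff_zero, coeff_zero] at h1
  have h2 : fs (s 0) (s 1) = s := ((fs_eq s _ _).1 rfl).symm
  rw [h2] at h1
  rw [← h1, MvPolynomial.coeff_zero]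

theorem Phi_mspan {T' : Set (Fin 2 →₀ ℕ)} {T : Set (ℕ × ℕ)} (hT : ∀ s ∈ T', (s 0, s 1) ∈ T)
    {f : MvPolynomial (Fin 2) K} (hf : f ∈ Pool.Agent.H932R5.mspan (E := 1) K T') :
    Phi K f ∈ Pool.Agent.H932R2.mspan K T := by
  unfold Pool.Agent.H932R5.mspan at hf
  refine Submodule.span_induction ?_ ?_ ?_ ?_ hf
  · rintro _ ⟨s, hs, rfl⟩
    beta_reduce
    rw [Phi_monomial, one_smul]
    exact Submodule.subset_span ⟨_, hT s hs, rfl⟩
  · rw [map_zero]
    exact Submodule.zero_mem _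
  · intro a b _ _ ha hb
    rw [map_add]
    exact Submodule.add_mem _ ha hb
  · intro c a _ ha
    rw [map_smul]
    exact Submodule.smul_mem _ c ha

/-- The substitution `y ↦ x ^ ρ + t y`. -/
noncomputable def Sb (ρ : ℕ) (t : K) : K[X][X] →+* K[X][X] :=
  eval₂RingHom C (C (X ^ ρ) + C (C t) * X)

theorem Sb_C (ρ : ℕ) (t : K) (g : K[X]) : Sb ρ t (C g) = C g := by simp [Sb]

theorem Sb_X (ρ : ℕ) (t : K) : Sb ρ t X = C (X ^ ρ) + C (C t) * X := by simp [Sb]

theorem Phi_sub (ρ : ℕ) (t : K) (f : MvPolynomial (Fin 2) K) :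
    Phi K (Pool.Agent.H932R5.sub (E := 1) ρ 1 t f) = Sb ρ t (Phi K f) := by
  have h : ((Phi K : MvPolynomial (Fin 2) K →+* K[X][X]).comp
      (Pool.Agent.H932R5.sub (E := 1) ρ 1 t : MvPolynomial (Fin 2) K →+* MvPolynomial (Fin 2) K)) =
      (Sb ρ t).comp (Phi K : MvPolynomial (Fin 2) K →+* K[X][X]) := by
    refine MvPolynomial.ringHom_ext (fun c => ?_) fun j => ?_
    · rw [RingHom.comp_apply, RingHom.comp_apply, RingHom.coe_coe, RingHom.coe_coe,
        Pool.Agent.H932R5.sub_C, Phi_C, Sb_C]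
    · rw [RingHom.comp_apply, RingHom.comp_apply, RingHom.coe_coe, RingHom.coe_coe]
      fin_cases j
      · show Phi K (Pool.Agent.H932R5.sub (E := 1) ρ 1 t (MvPolynomial.X 0)) = Sb ρ t (Phi K (MvPolynomial.X 0))
        rw [Pool.Agent.H932R5.sub_X_ne ρ t (by decide), Phi_X0, Sb_C]
      · show Phi K (Pool.Agent.H932R5.sub (E := 1) ρ 1 t (MvPolynomial.X 1)) = Sb ρ t (Phi K (MvPolynomial.X 1))
        rw [Pool.Agent.H932R5.sub_X_self, map_add, map_mul, map_pow, Phi_X0, Phi_X1, Phi_C, Sb_X, C_pow]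
  exact congrArg (fun φ : MvPolynomial (Fin 2) K →+* K[X][X] => φ f) h

theorem Sb_cIdeal {r m : ℕ} (ρ : ℕ) (t : K) (c : K) (g : K[X]) :
    (Pool.Agent.H932R2.cIdeal (fun _ : Fin r => c) (X ^ ρ + C t * g) m).map (Sb ρ t) ≤
      Pool.Agent.H932R2.cIdeal (fun _ : Fin r => c) g m := by
  unfold Pool.Agent.H932R2.cIdeal
  rw [Ideal.map_pow]
  refine Ideal.pow_right_mono ?_ m
  rw [Ideal.map_span, Ideal.span_le]
  rintro _ ⟨_, (rfl | rfl), rfl⟩
  · rw [map_sub, Sb_X, Sb_C]
    have e : (C (X ^ ρ) + C (C t) * X - C (X ^ ρ + C t * g) : K[X][X]) =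
        C (C t) * (X - C g) := by
      rw [C_add, C_mul]
      ring
    rw [e]
    exact Ideal.mul_mem_left _ _ (Ideal.subset_span (Or.inl rfl))
  · rw [Sb_C]
    exact Ideal.subset_span (Or.inr rfl)

/-- The family of the collisions `(y - g(x), (x - c) ^ r) ^ m`. -/
noncomputable def collFam (K : Type u) [Field K] (r m : ℕ) : Fam.{u, u} K 1 where
  ι := K × K[X]
  I := fun x => (Pool.Agent.H932R2.cIdeal (fun _ : Fin r => x.1) x.2 m).comap (Phi K)
  sub_le := fun ρ j t x hj _ => by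
    refine ⟨(x.1, X ^ ρ + C t * x.2), fun f hf => ?_⟩
    have hj1 : j = 1 := by
      fin_cases j
      · exact absurd rfl hj
      · rfl
    subst hj1
    rw [Ideal.mem_comap, Ideal.mem_comap]
    rw [Ideal.mem_comap] at hf
    have h1 := Sb_cIdeal ρ t x.1 x.2 (Ideal.mem_map_of_mem (Sb ρ t) hf)
    rw [← Phi_sub] at h1
    exact h1

theorem base_coll (r m : ℕ) : FFull (collFam K r m)
    {p : Fin (1 + 1) →₀ ℕ | p 0 + r * ∑ j : Fin 1, p j.succ < r * m} := by
  refine ⟨(0, 0), fun f hf hM => Phi_inj ?_⟩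
  have hf : Phi K f ∈ Pool.Agent.H932R2.cIdeal (fun _ : Fin r => (0 : K)) 0 m := hf
  rw [Pool.Agent.H932R2.cIdeal_zero, Pool.Agent.H932R2.mem_span_pow_iff] at hf
  have hsum : ∀ s : Fin (1 + 1) →₀ ℕ, ∑ j : Fin 1, s j.succ = s 1 := by
    intro s
    rw [Fin.sum_univ_one]
    rfl
  have hsupp : ∀ i l, ((Phi K f).coeff l).coeff i ≠ 0 → i + r * l < r * m := by
    intro i l h
    rw [Phi_coeff] at h
    have h1 := hM _ h
    have h2 : (fs i l) 0 + r * ∑ j : Fin 1, (fs i l) j.succ < r * m := h1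
    rw [hsum] at h2
    exact h2
  refine Polynomial.ext fun l => ?_
  rw [coeff_zero]
  rcases Nat.lt_or_ge l m with hl | hl
  · by_contra hne
    have hmon := (Pool.Agent.H932R2.rootPoly_monic (fun _ : Fin r => (0 : K))).pow (m - l)
    refine hmon.not_dvd_of_degree_lt hne ?_ (hf l hl)
    rw [degree_eq_natDegree hmon.ne_zero, (Pool.Agent.H932R2.rootPoly_monic _).natDegree_pow,
      Pool.Agent.H932R2.rootPoly_natDegree, degree_lt_iff_coeff_zero]
    intro i hi
    by_contra h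
    have h1 := hsupp i l h
    have h2 : r * m = (m - l) * r + r * l := by
      have : m = (m - l) + l := by omega
      conv_lhs => rw [this]
      ring
    omega
  · refine Polynomial.ext fun i => ?_
    rw [coeff_zero]
    by_contra h
    have h1 := hsupp i l h
    have h2 : r * m ≤ r * l := Nat.mul_le_mul_left _ hl
    omega

theorem rkI_of_FRk {r m N : ℕ} {T' : Set (Fin 2 →₀ ℕ)} {T : Set (ℕ × ℕ)}
    (hT : ∀ s ∈ T', (s 0, s 1) ∈ T) (h : FRk (collFam K r m) T' N) :
    ∃ (c : K) (g : K[X]), Pool.Agent.H932R2.RkI (Pool.Agent.H932R2.cIdeal (fun _ : Fin r => c) g m) T N := by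
  obtain ⟨x, v, hv, hli⟩ := h
  refine ⟨x.1, x.2, fun i => Phi K (v i), fun i => Phi_mspan hT (hv i), fun c hc => hli c ?_⟩
  show Phi K (∑ i, c i • v i) ∈ Pool.Agent.H932R2.cIdeal (fun _ : Fin r => x.1) x.2 m
  rw [map_sum]
  convert hc using 2 with i
  rw [map_smul]

theorem Td_Tset {d : ℕ} : ∀ s ∈ Pool.Agent.H932R5.Td 1 d, ((s 0, s 1) : ℕ × ℕ) ∈ Pool.Agent.H932R2.Tset d := by
  intro s hs
  have hs : Finsupp.degree s ≤ d := hs
  rw [Finsupp.degree_eq_sum, Fin.sum_univ_two] at hs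
  exact hs

theorem card_Tfin' (d : ℕ) : (Pool.Agent.H932R2.Tfin d).card = (d + 2).choose 2 := by
  have h4 := Pool.Agent.H932R2.card_Tfin d
  have h5 : (d + 2).choose 2 * 2 = (d + 2) * (d + 1) := by
    rw [Nat.choose_two_right, Nat.div_mul_cancel (Nat.even_mul_pred_self _).two_dvd]
    rfl
  linarith

theorem rkI_of_FFull {r m d : ℕ} (h : FFull (collFam K r m) (Pool.Agent.H932R5.Td 1 d)) :
    ∃ (c : K) (g : K[X]), Pool.Agent.H932R2.RkI (Pool.Agent.H932R2.cIdeal (fun _ : Fin r => c) g m)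
      (Pool.Agent.H932R2.Tset d) (Pool.Agent.H932R2.Tfin d).card := by
  rw [← Pool.Agent.H932R5.coe_dg] at h
  have h1 := h.rk
  rw [Pool.Agent.H932R5.card_dg, Pool.Agent.H932R5.coe_dg] at h1
  rw [card_Tfin']
  exact rkI_of_FRk Td_Tset h1

/-- Openness of the rank in the parameters of a collision. -/
theorem hop_cIdeal {r m : ℕ} (hr : 0 < r) {T : Set (ℕ × ℕ)} {N : ℕ} {c1 : K} {g : K[X]}
    (hR' : Pool.Agent.H932R2.RkI (Pool.Agent.H932R2.cIdeal (fun _ : Fin r => c1) g m) T N) :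
    ∃ F : MvPolynomial (Fin (r + 1)) K, F ≠ 0 ∧
      ∀ (c : K) (a : Fin r → K), MvPolynomial.eval (Fin.cons c a : Fin (r + 1) → K) F ≠ 0 →
        Pool.Agent.H932R2.RkI (Pool.Agent.H932R2.jetIdeal m c a) T N := by
  classical
  let c : Unit → MvPolynomial (Fin (r + 1)) K := fun _ => MvPolynomial.X 0
  let γ : Unit → (MvPolynomial (Fin (r + 1)) K)[X] := fun _ =>
    ∑ j : Fin r, C (MvPolynomial.X j.succ) * X ^ (j : ℕ)
  have hev : ∀ (c0 : K) (a : Fin r → K),
      Pool.Agent.H932R2.uIdeal r m (fun i => MvPolynomial.eval (Fin.cons c0 a : Fin (r + 1) → K) (c i))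
        (fun i => (γ i).map (MvPolynomial.eval (Fin.cons c0 a : Fin (r + 1) → K))) =
      Pool.Agent.H932R2.jetIdeal m c0 a := by
    intro c0 a
    simp only [c, γ, MvPolynomial.eval_X, Fin.cons_zero, Pool.Agent.H932R2.uIdeal, iInf_const,
      Pool.Agent.H932R2.cIdeal, Pool.Agent.H932R2.jetIdeal, Pool.Agent.H932R2.rootPoly_const, Polynomial.map_sum,
      Polynomial.map_mul, Polynomial.map_C, Polynomial.map_pow, Polynomial.map_X, Fin.cons_succ]
  have h3 := hR'.anti (Pool.Agent.H932R2.cIdeal_mod _ g m)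
  have hdeg : (g %ₘ Pool.Agent.H932R2.rootPoly (fun _ : Fin r => c1)).natDegree < r := by
    have h4 := natDegree_modByMonic_lt g (Pool.Agent.H932R2.rootPoly_monic (fun _ : Fin r => c1)) (by
      intro h5
      have h6 := Pool.Agent.H932R2.rootPoly_natDegree (fun _ : Fin r => c1)
      rw [h5, natDegree_one] at h6
      omega)
    rwa [Pool.Agent.H932R2.rootPoly_natDegree] at h4
  obtain ⟨g', hg'⟩ : ∃ g', g' = g %ₘ Pool.Agent.H932R2.rootPoly (fun _ : Fin r => c1) := ⟨_, rfl⟩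
  rw [← hg'] at h3 hdeg
  have hsum : ∑ j : Fin r, C (g'.coeff j) * X ^ (j : ℕ) = g' := by
    conv_rhs => rw [as_sum_range_C_mul_X_pow' g' hdeg]
    exact (Finset.sum_range fun j => C (g'.coeff j) * X ^ j).symm
  obtain ⟨F, hF, hF'⟩ := Pool.Agent.H932R2.exists_open r m c γ T N
    (Fin.cons c1 (fun j : Fin r => g'.coeff j) : Fin (r + 1) → K) (by
    rw [hev, Pool.Agent.H932R2.jetIdeal, hsum]
    unfold Pool.Agent.H932R2.cIdeal at h3
    rw [Pool.Agent.H932R2.rootPoly_const] at h3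
    exact h3)
  exact ⟨F, hF, fun c0 a hP => by rw [← hev]; exact hF' _ hP⟩

end Pool.Agent.H519R3.AC
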