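import Mathlib
import Pool.Agent.H519R3.AC.Coll

set_option autoImplicit false

/-!
# General collisions in every characteristic: the numerical statements
-/

namespace Pool.Agent.H519R3.AC

open Polynomial Pool.Agent.H932R2 Pool.Agent.H932R3

universe u

/-- The numerical core: emptiness below and independence above the critical degree. -/
theorem coll_core (q : ℕ) : ∃ N : ℕ, ∀ (K : Type u) [Field K] [Infinite K] (r : ℕ), N ≤ r →
    ∀ m : ℕ, 0 < m → ∃ F : MvPolynomial (Fin (r + 1)) K, F ≠ 0 ∧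
      ∀ (c : K) (a : Fin r → K), MvPolynomial.eval (Fin.cons c a : Fin (r + 1) → K) F ≠ 0 →
        ∀ d : ℕ,
          (((1 + 1 / (r : ℝ) ^ q) * d ≤ m * Real.sqrt r ∨
            (m ≤ r ^ q ∧ (d : ℝ) < m * Real.sqrt r) ∨
            (d : ℝ) ≤ (1 - 1 / (r : ℝ) ^ q) * (Real.sqrt r * m)) →
              NoForm (jetIdeal m c a) d ∧ JetDim r m c a d) ∧
          ((1 + 1 / (r : ℝ) ^ q) * (Real.sqrt r * m) + Real.sqrt r ≤ d → JetDim r m c a d) := by
  obtain ⟨N, hN1, hN⟩ := Pool.Agent.H932R5.exists_consts 1 ((1 + 1) * (q + 1) + (q + 1) + 2)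
  refine ⟨N + 8, fun K _ _ r hr m hm => ?_⟩
  have hr0 : 0 < r := by omega
  have hrR : (0 : ℝ) < r := by exact_mod_cast hr0
  have hr1 : (1 : ℝ) ≤ r := by exact_mod_cast hr0
  have hr2 : (2 : ℝ) ≤ r := by exact_mod_cast (show 2 ≤ r by omega)
  have hmR : (1 : ℝ) ≤ m := by exact_mod_cast hm
  have hs0 : 0 < Real.sqrt r := Real.sqrt_pos.2 hrR
  have hss : Real.sqrt r * Real.sqrt r = r := Real.mul_self_sqrt hrR.le
  have hL : Real.sqrt r ^ (1 + 1) = (r : ℝ) := by
    rw [pow_succ, pow_one, hss]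
  obtain ⟨hL1, μ, ν, hμ1, hν0, hν1, hμE, hνE, hrat, hrat'⟩ :=
    hN r (by omega) (Real.sqrt r) hs0 hL
  obtain ⟨ε, hε⟩ : ∃ ε : ℝ, ε = 1 / (r : ℝ) ^ q := ⟨_, rfl⟩
  obtain ⟨δ, hδ⟩ : ∃ δ : ℝ, δ = 1 / (r : ℝ) ^ ((1 + 1) * (q + 1) + (q + 1) + 2) := ⟨_, rfl⟩
  have hε0 : 0 < ε := by rw [hε]; positivity
  have hε1 : ε ≤ 1 := by
    rw [hε, div_le_one (by positivity)]
    exact one_le_pow₀ hr1
  have hδ0 : 0 < δ := by rw [hδ]; positivity
  have hδε : 2 * δ ≤ ε := by
    have h1 : (r : ℝ) ^ (q + 1) ≤ (r : ℝ) ^ ((1 + 1) * (q + 1) + (q + 1) + 2) :=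
      pow_le_pow_right₀ hr1 (by omega)
    have h2 : δ ≤ 1 / (r : ℝ) ^ (q + 1) := by
      rw [hδ]
      exact one_div_le_one_div_of_le (by positivity) h1
    have h3 : 2 * (1 / (r : ℝ) ^ (q + 1)) ≤ 1 / (r : ℝ) ^ q := by
      rw [pow_succ, mul_one_div, div_le_div_iff₀ (by positivity) (by positivity)]
      have h4 : (0 : ℝ) < (r : ℝ) ^ q := by positivity
      nlinarith
    rw [hε]
    linarith
  have hμE' := hμE
  rw [pow_one, ← hδ] at hμE
  rw [pow_one, ← hδ] at hνE
  rw [← hε]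
  -- the critical condition
  obtain ⟨P, hP⟩ : ∃ P : ℕ → Prop, ∀ d, P d ↔ μ ^ 1 * Real.sqrt r ^ 1 * d < ((r * m : ℕ) : ℝ) :=
    ⟨fun d => μ ^ 1 * Real.sqrt r ^ 1 * d < ((r * m : ℕ) : ℝ), fun d => Iff.rfl⟩
  have hrm : (0 : ℝ) < ((r * m : ℕ) : ℝ) := by
    push_cast
    positivity
  have hP0 : P 0 := by
    rw [hP, Nat.cast_zero, mul_zero]
    exact hrm
  have hPlt : ∀ d, P d → d ≤ r * m := by
    intro d hd
    rw [hP, pow_one, pow_one] at hd
    have h1 : (1 : ℝ) ≤ μ * Real.sqrt r := one_le_mul_of_one_le_of_one_le hμ1 hL1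
    have h2 : (d : ℝ) ≤ μ * Real.sqrt r * d := le_mul_of_one_le_left (Nat.cast_nonneg d) h1
    have h3 : (d : ℝ) < ((r * m : ℕ) : ℝ) := lt_of_le_of_lt h2 hd
    exact (by exact_mod_cast h3 : d < r * m).le
  classical
  obtain ⟨e, he, hemax⟩ : ∃ e, P e ∧ ∀ d, P d → d ≤ e :=
    ⟨Nat.findGreatest P (r * m), Nat.findGreatest_spec (Nat.zero_le _) hP0,
      fun d hd => Nat.le_findGreatest (hPlt d hd) hd⟩
  obtain ⟨F1, hF1, hF1'⟩ : ∃ F : MvPolynomial (Fin (r + 1)) K, F ≠ 0 ∧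
      ∀ (c : K) (a : Fin r → K), MvPolynomial.eval (Fin.cons c a : Fin (r + 1) → K) F ≠ 0 →
        RkI (jetIdeal m c a) (Tset e) (Tfin e).card := by
    obtain ⟨c1, g, hR⟩ := rkI_of_FFull (K := K)
      (full_main (base_coll r m) hrat hL1 hμ1 hL ((hP e).1 he))
    exact hop_cIdeal hr0 hR
  -- the upper side
  have hex : ∃ f : ℕ, Real.sqrt r * (m + 1) ≤ ν * f := by
    obtain ⟨f, hf⟩ := exists_nat_ge (Real.sqrt r * (m + 1) / ν)
    refine ⟨f, ?_⟩
    rw [div_le_iff₀ hν0] at hf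
    linarith
  obtain ⟨f, hf, hfmin⟩ : ∃ f : ℕ, Real.sqrt r * (m + 1) ≤ ν * f ∧
      ∀ d : ℕ, Real.sqrt r * (m + 1) ≤ ν * d → f ≤ d :=
    ⟨Nat.find hex, Nat.find_spec hex, fun d hd => Nat.find_min' hex hd⟩
  obtain ⟨F2, hF2, hF2'⟩ : ∃ F : MvPolynomial (Fin (r + 1)) K, F ≠ 0 ∧
      ∀ (c : K) (a : Fin r → K), MvPolynomial.eval (Fin.cons c a : Fin (r + 1) → K) F ≠ 0 →
        RkI (jetIdeal m c a) (Tset f) (r * (m + 1).choose 2) := by
    have h1 : FRk (collFam K r m) (Pool.Agent.H932R5.Td 1 f) (r * (m + 1).choose (1 + 1)) :=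
      rk_main (base_coll r m) hm hrat' hL1 hν0 hν1 hL (by
        rw [pow_one]
        push_cast
        exact hf)
    obtain ⟨c1, g, hR⟩ := rkI_of_FRk Td_Tset h1
    exact hop_cIdeal hr0 hR
  refine ⟨F1 * F2, mul_ne_zero hF1 hF2, fun c a hPe d => ?_⟩
  rw [map_mul] at hPe
  have hR1 := hF1' c a (left_ne_zero_of_mul hPe)
  have hR2 := hF2' c a (right_ne_zero_of_mul hPe)
  constructor
  · intro hd
    have hPd : P d := by
      rw [hP]
      rcases hd with hd | hd | hd
      · rw [pow_one, pow_one]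
        rcases Nat.eq_zero_or_pos d with h0 | h0
        · rw [h0, Nat.cast_zero, mul_zero]
          exact hrm
        · have hdR : (0 : ℝ) < d := by exact_mod_cast h0
          have h1 : μ * Real.sqrt r * d < (1 + ε) * (Real.sqrt r * d) := by
            rw [mul_assoc]
            exact mul_lt_mul_of_pos_right (by linarith) (by positivity)
          have h2 : (1 + ε) * (Real.sqrt r * d) = Real.sqrt r * ((1 + ε) * d) := by ring
          have h3 : Real.sqrt r * ((1 + ε) * d) ≤ Real.sqrt r * (m * Real.sqrt r) :=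
            mul_le_mul_of_nonneg_left hd hs0.le
          have h4 : Real.sqrt r * (m * Real.sqrt r) = r * m := by
            calc Real.sqrt r * (m * Real.sqrt r) = (Real.sqrt r * Real.sqrt r) * m := by ring
              _ = r * m := by rw [hss]
          push_cast
          linarith
      · refine Pool.Agent.H932R5.exact_cond (E := 1) (q := q + 1) hL1 hL (by norm_num; omega) hμ1
          hμE' ?_ ?_
        · rw [pow_succ, mul_comm]
          exact Nat.mul_le_mul_right r hd.1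
        · have h1 := mul_self_lt_mul_self (Nat.cast_nonneg d) hd.2
          have h2 : (m : ℝ) * Real.sqrt r * (m * Real.sqrt r) = r * (m : ℝ) ^ 2 := by
            calc (m : ℝ) * Real.sqrt r * (m * Real.sqrt r) =
                (Real.sqrt r * Real.sqrt r) * (m : ℝ) ^ 2 := by ring
              _ = _ := by rw [hss]
          rw [h2] at h1
          have h3 : d * d < r * m ^ 2 := by exact_mod_cast h1
          calc r ^ 1 * d ^ (1 + 1) = r * (d * d) := by ring
            _ < r * (r * m ^ 2) := Nat.mul_lt_mul_of_pos_left h3 hr0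
            _ = (r * m) ^ (1 + 1) := by ring
      · rw [pow_one, pow_one]
        push_cast
        have h1 : μ * Real.sqrt r * d ≤ μ * Real.sqrt r * ((1 - ε) * (Real.sqrt r * m)) :=
          mul_le_mul_of_nonneg_left hd (by positivity)
        have h2 : μ * Real.sqrt r * ((1 - ε) * (Real.sqrt r * m)) = (μ * (1 - ε)) * (r * m) := by
          calc μ * Real.sqrt r * ((1 - ε) * (Real.sqrt r * m)) =
              (μ * (1 - ε)) * ((Real.sqrt r * Real.sqrt r) * m) := by ring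
            _ = _ := by rw [hss]
        have h3 : μ * (1 - ε) < 1 := by
          have h4 : μ * (1 - ε) ≤ (1 + ε) * (1 - ε) :=
            mul_le_mul_of_nonneg_right (by linarith) (by linarith)
          nlinarith
        have h5 : (0 : ℝ) < r * m := by positivity
        nlinarith
    exact ⟨(NoForm.of_rk hR1).mono (hemax d hPd), jet_full hR1 d (hemax d hPd)⟩
  · intro hd
    refine jet_indep hR2 d (hfmin d ?_)
    have h1 : δ * ((m : ℝ) + 1) ≤ ε * m := by nlinarith
    have h2 : (1 + δ) * (Real.sqrt r * (m + 1)) ≤ (1 + ε) * (Real.sqrt r * m) + Real.sqrt r := by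
      have h3 : (1 + ε) * (Real.sqrt r * m) + Real.sqrt r - (1 + δ) * (Real.sqrt r * (m + 1)) =
          Real.sqrt r * (ε * m - δ * (m + 1)) := by ring
      have h4 : 0 ≤ Real.sqrt r * (ε * m - δ * (m + 1)) :=
        mul_nonneg hs0.le (by linarith)
      linarith
    have h5 : Real.sqrt r * ((m : ℝ) + 1) * 1 ≤ Real.sqrt r * ((m : ℝ) + 1) * ((1 + δ) * ν) :=
      mul_le_mul_of_nonneg_left hνE (by positivity)
    have h6 : (1 + δ) * (Real.sqrt r * (m + 1)) * ν ≤ d * ν :=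
      mul_le_mul_of_nonneg_right (h2.trans hd) hν0.le
    linarith

end Pool.Agent.H519R3.AC
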