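import Mathlib
import Pool.Agent.H519R3.AC.Phases
import Pool.Agent.H932R5.Final

set_option autoImplicit false

/-!
# Points over an infinite field, and generic points of its extensions
-/

namespace Pool.Agent.H519R3.AC

open MvPolynomial Pool.Agent.H932R5

universe u v

section base

variable {K : Type u} [Field K] {E n : ℕ} {R : Type v} [CommRing R]

/-- The family of all sets of fat points with given multiplicities. -/
noncomputable def ptsFam (K : Type u) [Field K] (E : ℕ) {n : ℕ} (w : Fin n → ℕ) :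
    Fam.{u, u} K E where
  ι := Fin n → Fin (E + 1) → K
  I := Z w
  sub_le := fun ρ j t x _ _ => ⟨_, Z_sub ρ j t w x⟩

theorem th_zero_of_dvd (φ : K →+* R) (y : Fin (E + 1) → R) {f : MvPolynomial (Fin (E + 1)) K}
    (D : ℕ → ℕ) (G : ℕ → Polynomial R) (hG : ∀ e, (G e).Monic) (hGd : ∀ e, (G e).natDegree = D e)
    (hdvd : ∀ e, G e ∣ (th φ y f).coeff e)
    (hM : ∀ α, coeff α f ≠ 0 → α 0 < D (∑ j : Fin E, α j.succ)) : th φ y f = 0 := by
  refine Polynomial.ext fun e => ?_
  rw [Polynomial.coeff_zero]
  by_contra hne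
  have hnt : Nontrivial R := by
    by_contra h
    rw [not_nontrivial_iff_subsingleton] at h
    exact hne (Polynomial.ext fun a => Subsingleton.elim _ _)
  refine (hG e).not_dvd_of_degree_lt hne ?_ (hdvd e)
  rw [Polynomial.degree_eq_natDegree (hG e).ne_zero, hGd, Polynomial.degree_lt_iff_coeff_zero]
  intro a ha
  refine th_coeff φ y f e a fun α hα hcon => ?_
  have h5 := hM α hα
  rw [hcon.1, hcon.2] at h5
  omega

theorem th_eq_zero_pts (φ : K →+* R) (y : Fin (E + 1) → R) {w : Fin n → ℕ} {ν : Fin n → K}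
    (hν : Function.Injective ν) {f : MvPolynomial (Fin (E + 1)) K}
    (hf : f ∈ Z w (fun (i : Fin n) (k : Fin (E + 1)) => if k = 0 then ν i else 0))
    (hM : ∀ α, coeff α f ≠ 0 → α 0 + n * ∑ j : Fin E, α j.succ < ∑ i, w i) :
    th φ y f = 0 := by
  classical
  rw [mem_Z] at hf
  obtain ⟨c, hc⟩ : ∃ c : Fin n → R, ∀ i, c i = φ (ν i) := ⟨_, fun _ => rfl⟩
  have h1 : ∀ i, ∀ e < w i, (Polynomial.X - Polynomial.C (c i)) ^ (w i - e) ∣
      (th φ y f).coeff e := by
    intro i
    have h2 := Ideal.mem_map_of_mem (th φ y) (hf i)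
    rw [Ideal.map_pow] at h2
    have h3 : Ideal.map (th φ y) (pt (fun k : Fin (E + 1) => if k = 0 then ν i else 0)) ≤
        Ideal.span {Polynomial.X, Polynomial.C (Polynomial.X - Polynomial.C (c i))} := by
      unfold pt
      rw [Ideal.map_span, Ideal.span_le]
      rintro _ ⟨_, ⟨k, rfl⟩, rfl⟩
      show th φ y (MvPolynomial.X k - MvPolynomial.C (if k = 0 then ν i else 0)) ∈
        Ideal.span {Polynomial.X, Polynomial.C (Polynomial.X - Polynomial.C (c i))}
      by_cases hk : k = 0
      · subst hk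
        rw [if_pos rfl, map_sub (th φ y), th_X0, th_C, ← hc, ← Polynomial.C_sub]
        exact Ideal.subset_span (Or.inr rfl)
      · rw [if_neg hk, MvPolynomial.C_0, sub_zero, th_X φ y hk]
        exact Ideal.mul_mem_left _ _ (Ideal.subset_span (Or.inl rfl))
    exact span_pow_le_divIdeal _ _ (Ideal.pow_right_mono h3 (w i) h2)
  have hmonic : ∀ e : ℕ, (∏ i, (Polynomial.X - Polynomial.C (c i)) ^ (w i - e)).Monic := fun e =>
    Polynomial.monic_prod_of_monic _ _ fun i _ => (Polynomial.monic_X_sub_C _).pow _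
  rcases subsingleton_or_nontrivial R with hR | hR
  · exact Polynomial.ext fun e => Polynomial.ext fun a => Subsingleton.elim _ _
  refine th_zero_of_dvd φ y (fun e => ∑ i, (w i - e))
    (fun e => ∏ i, (Polynomial.X - Polynomial.C (c i)) ^ (w i - e)) hmonic (fun e => ?_)
    (fun e => ?_) fun α hα => ?_
  · rw [Polynomial.natDegree_prod_of_monic _ _ fun i _ => (Polynomial.monic_X_sub_C _).pow _]
    refine Finset.sum_congr rfl fun i _ => ?_
    rw [(Polynomial.monic_X_sub_C _).natDegree_pow, Polynomial.natDegree_X_sub_C, mul_one]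
  · refine Finset.prod_dvd_of_coprime ?_ fun i _ => ?_
    · intro i _ i' _ hii
      refine IsCoprime.pow (Polynomial.isCoprime_X_sub_C_of_isUnit_sub ?_)
      rw [hc, hc, ← map_sub]
      refine (isUnit_iff_ne_zero.2 ?_).map φ
      rw [sub_ne_zero]
      intro h
      exact hii (hν h)
    · rcases Nat.lt_or_ge e (w i) with h | h
      · exact h1 i e h
      · rw [Nat.sub_eq_zero_of_le h, pow_zero]
        exact one_dvd _
  · have h5 := hM α hα
    show α 0 < ∑ i, (w i - ∑ j : Fin E, α j.succ)
    obtain ⟨e, he⟩ : ∃ e, e = ∑ j : Fin E, α j.succ := ⟨_, rfl⟩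
    rw [← he] at h5 ⊢
    have h6 : ∑ i, w i ≤ ∑ i, ((w i - e) + e) := Finset.sum_le_sum fun i _ => by omega
    rw [Finset.sum_add_distrib, Finset.sum_const, Finset.card_univ, Fintype.card_fin,
      smul_eq_mul] at h6
    omega

/-- No nonzero polynomial supported in the simplex of the staircase vanishes at fat points on
the coordinate axis, over every infinite field. -/
theorem base_pts [Infinite K] (w : Fin n → ℕ) :
    FFull (ptsFam K E w) {p : Fin (E + 1) →₀ ℕ | p 0 + n * ∑ j : Fin E, p j.succ < ∑ i, w i} := by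
  obtain ⟨ν, hν⟩ : ∃ ν : Fin n → K, Function.Injective ν :=
    ⟨fun i => Infinite.natEmbedding K i, fun a b h =>
      Fin.ext ((Infinite.natEmbedding K).injective h)⟩
  refine ⟨fun i k => if k = 0 then ν i else 0, fun f hf hM => ?_⟩
  have h := th_eq_zero_pts (MvPolynomial.C (R := K) (σ := Fin (E + 1)))
    (MvPolynomial.X : Fin (E + 1) → MvPolynomial (Fin (E + 1)) K) hν hf hM
  have h1 := ev_th (MvPolynomial.C (R := K) (σ := Fin (E + 1)))
    (MvPolynomial.X : Fin (E + 1) → MvPolynomial (Fin (E + 1)) K) f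
  rw [h, Polynomial.eval_zero, Polynomial.eval_zero] at h1
  rw [h1]
  exact (MvPolynomial.eval₂_eta f).symm

end base

section ext

variable {K : Type u} [Field K] {L : Type v} [Field L] [Algebra K L] {E n : ℕ}

theorem map_gshift_ext (i : Fin n) (P : Fin n → Fin (E + 1) → L)
    (f : MvPolynomial (Fin (E + 1)) K) :
    map ((aeval (fun q : Fin n × Fin (E + 1) => P q.1 q.2) :
      MvPolynomial (Fin n × Fin (E + 1)) K →ₐ[K] L) :
      MvPolynomial (Fin n × Fin (E + 1)) K →+* L) (gshift K E n i f) =
      shift (P i) (map (algebraMap K L) f) := by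
  have h : (map ((aeval (fun q : Fin n × Fin (E + 1) => P q.1 q.2) :
      MvPolynomial (Fin n × Fin (E + 1)) K →ₐ[K] L) :
      MvPolynomial (Fin n × Fin (E + 1)) K →+* L)).comp (gshift K E n i) =
      (shift (P i) : MvPolynomial (Fin (E + 1)) L →+* MvPolynomial (Fin (E + 1)) L).comp
        (map (algebraMap K L)) := by
    refine MvPolynomial.ringHom_ext (fun c => ?_) fun j => ?_
    · rw [RingHom.comp_apply, gshift, eval₂Hom_C, RingHom.comp_apply, map_C, RingHom.comp_apply,
        map_C, RingHom.coe_coe, aeval_C, RingHom.coe_coe, shift_C]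
    · rw [RingHom.comp_apply, gshift, eval₂Hom_X', map_add, map_X, map_C, RingHom.comp_apply,
        map_X, RingHom.coe_coe, aeval_X, RingHom.coe_coe, shift_X]
  exact congrArg (fun φ : MvPolynomial (Fin (E + 1)) K →+* MvPolynomial (Fin (E + 1)) L => φ f) h

/-- Openness of independence, for points over an extension field. -/
theorem exists_open_ext {w : Fin n → ℕ} {N : ℕ} (v : Fin N → MvPolynomial (Fin (E + 1)) K)
    (x : Fin n → Fin (E + 1) → K)
    (h : ∀ c : Fin N → K, ∑ i, c i • v i ∈ Z w x → ∀ i, c i = 0) :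
    ∃ F : MvPolynomial (Fin n × Fin (E + 1)) K, F ≠ 0 ∧
      ∀ P : Fin n → Fin (E + 1) → L,
        aeval (fun q : Fin n × Fin (E + 1) => P q.1 q.2) F ≠ (0 : L) →
        ∀ c : Fin N → L, ∑ i, c i • map (algebraMap K L) (v i) ∈ Z w P → ∀ i, c i = 0 := by
  classical
  let A : (Fin N → K) →ₗ[K] (Cnd E w → K) := (cnd w x).comp (Fintype.linearCombination K v)
  have hA : ∀ a : Fin N → K, A a = cnd w x (∑ i, a i • v i) := fun a => rfl
  have hker : LinearMap.ker A = ⊥ := by
    rw [LinearMap.ker_eq_bot']
    intro a ha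
    rw [hA, ← mem_Z_iff] at ha
    exact funext (h a ha)
  obtain ⟨G, hG⟩ := LinearMap.exists_leftInverse_of_injective A hker
  let Gen : Cnd E w → Fin N → MvPolynomial (Fin n × Fin (E + 1)) K := fun p i =>
    coeff p.2.1 (gshift K E n p.1 (v i))
  have hGen0 : ∀ p i, eval (fun q : Fin n × Fin (E + 1) => x q.1 q.2) (Gen p i) =
      A (Pi.single i 1) p := by
    intro p i
    rw [hA]
    have h1 : ∑ j, (Pi.single i 1 : Fin N → K) j • v j = v i := by
      rw [Finset.sum_eq_single i]
      · simp
      · intro j _ hj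
        rw [Pi.single_eq_of_ne hj, zero_smul]
      · intro h
        exact absurd (Finset.mem_univ i) h
    rw [h1, cnd_apply, ← map_gshift, coeff_map]
  have hGen : ∀ (P : Fin n → Fin (E + 1) → L) p i,
      aeval (fun q : Fin n × Fin (E + 1) => P q.1 q.2) (Gen p i) =
        cnd w P (map (algebraMap K L) (v i)) p := by
    intro P p i
    rw [cnd_apply, ← map_gshift_ext, coeff_map]
    rfl
  let Mx : Matrix (Fin N) (Fin N) (MvPolynomial (Fin n × Fin (E + 1)) K) := fun k i =>
    ∑ p, C (G (Pi.single p 1) k) * Gen p i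
  refine ⟨Mx.det, ?_, fun P hP a ha => ?_⟩
  · intro h0
    have h1 : eval (fun q : Fin n × Fin (E + 1) => x q.1 q.2) Mx.det =
        (Matrix.of fun k i => G (A (Pi.single i 1)) k).det := by
      rw [RingHom.map_det]
      congr 1
      ext k i
      show eval (fun q : Fin n × Fin (E + 1) => x q.1 q.2)
        (∑ p, C (G (Pi.single p 1) k) * Gen p i) = _
      rw [map_sum]
      have h1 : A (Pi.single i 1) = ∑ p, (A (Pi.single i 1) p) • (Pi.single p 1 : _ → K) := by
        ext q
        simp [Finset.sum_apply, Pi.single_apply]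
      rw [Matrix.of_apply]
      conv_rhs => rw [h1]
      rw [map_sum, Finset.sum_apply]
      refine Finset.sum_congr rfl fun p _ => ?_
      rw [map_mul, eval_C, hGen0, map_smul, Pi.smul_apply, smul_eq_mul, mul_comm]
    rw [h0, map_zero] at h1
    have h2 : (Matrix.of fun k i => G (A (Pi.single i 1)) k) =
        (1 : Matrix (Fin N) (Fin N) K) := by
      ext k i
      have h3 : G (A (Pi.single i 1)) = Pi.single i 1 :=
        LinearMap.congr_fun hG (Pi.single i 1)
      rw [Matrix.of_apply, h3, Matrix.one_apply, Pi.single_apply]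
    rw [h2, Matrix.det_one] at h1
    exact zero_ne_one h1
  · let ev : MvPolynomial (Fin n × Fin (E + 1)) K →ₐ[K] L :=
      aeval (fun q : Fin n × Fin (E + 1) => P q.1 q.2)
    have hP' : (Mx.map ev).det ≠ 0 := by
      have h1 : ev Mx.det = (Mx.map ev).det := AlgHom.map_det ev Mx
      rw [← h1]
      exact hP
    have h1 : (Mx.map ev).mulVec a = 0 := by
      ext k
      rw [Matrix.mulVec, dotProduct, Pi.zero_apply]
      have h2 : ∀ i, (Mx.map ev) k i = ∑ p, algebraMap K L (G (Pi.single p 1) k) *
          cnd w P (map (algebraMap K L) (v i)) p := by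
        intro i
        show ev (∑ p, C (G (Pi.single p 1) k) * Gen p i) = _
        rw [map_sum]
        refine Finset.sum_congr rfl fun p _ => ?_
        rw [map_mul]
        congr 1
        · exact aeval_C _ _
        · exact hGen P p i
      simp only [h2]
      have h3 : ∀ p, ∑ i, cnd w P (map (algebraMap K L) (v i)) p * a i = 0 := by
        intro p
        rw [mem_Z_iff] at ha
        have h4 := congrFun ha p
        rw [map_sum, Finset.sum_apply, Pi.zero_apply] at h4
        rw [← h4]
        refine Finset.sum_congr rfl fun i _ => ?_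
        rw [map_smul, Pi.smul_apply, smul_eq_mul, mul_comm]
      calc ∑ i, (∑ p, algebraMap K L (G (Pi.single p 1) k) *
            cnd w P (map (algebraMap K L) (v i)) p) * a i =
          ∑ p, algebraMap K L (G (Pi.single p 1) k) *
            ∑ i, cnd w P (map (algebraMap K L) (v i)) p * a i := by
            simp only [Finset.sum_mul, Finset.mul_sum]
            rw [Finset.sum_comm]
            refine Finset.sum_congr rfl fun p _ => Finset.sum_congr rfl fun i _ => ?_
            ring
        _ = 0 := by simp only [h3, mul_zero, Finset.sum_const_zero]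
    exact fun i => congrFun (Matrix.eq_zero_of_mulVec_eq_zero hP' h1) i

/-- Emptiness at algebraically independent points of an extension field. -/
theorem emptyAt_of_full {w : Fin n → ℕ} {d : ℕ} (h : FFull (ptsFam K E w) (Td E d))
    {P : Fin n → Fin (E + 1) → L}
    (hP : AlgebraicIndependent K (fun q : Fin n × Fin (E + 1) => P q.1 q.2)) :
    EmptyAt w P d := by
  classical
  obtain ⟨x, hx⟩ := h
  rw [← coe_dg] at hx
  obtain ⟨F, hF, hF'⟩ := exists_open_ext (L := L) (w := w)
    (fun i => monomial (enumM (dg E (d + 1)) i) (1 : K)) x (fun c hc i => by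
      have h1 := hx _ hc (fun α hα => ?_)
      · have h2 := coeff_sum_enum (dg E (d + 1)) c i
        rw [h1, coeff_zero] at h2
        exact h2.symm
      · have h3 : ∑ i, c i • (monomial (enumM (dg E (d + 1)) i) (1 : K)) ∈
            mspan K (↑(dg E (d + 1)) : Set (Fin (E + 1) →₀ ℕ)) :=
          Submodule.sum_mem _ fun i _ => Submodule.smul_mem _ _ (Submodule.subset_span
            ⟨_, enumM_mem _ i, rfl⟩)
        exact mem_mspan.1 h3 α hα)
  intro f hf hM
  have hF2 : aeval (fun q : Fin n × Fin (E + 1) => P q.1 q.2) F ≠ (0 : L) := by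
    intro h0
    exact hF ((algebraicIndependent_iff.1 hP) F h0)
  have h1 : f ∈ mspan L (↑(dg E (d + 1)) : Set (Fin (E + 1) →₀ ℕ)) := by
    rw [coe_dg]
    exact mem_mspan.2 hM
  rw [mspan_eq_range, Submodule.mem_span_range_iff_exists_fun] at h1
  obtain ⟨c, rfl⟩ := h1
  have h2 := hF' P hF2 c (by
    simpa [map_monomial] using hf)
  exact Finset.sum_eq_zero fun i _ => by rw [h2 i, zero_smul]

end ext

section prime

variable {k : Type u} [Field k] [IsAlgClosed k] {E n : ℕ}

/-- **Emptiness at generic points** of an algebraically closed field of any characteristic. -/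
theorem emptyAt_generic {w : Fin n → ℕ} {P : Fin n → Fin (E + 1) → k}
    (hP : AlgebraicIndependent (⊥ : Subfield k) (fun q : Fin n × Fin (E + 1) => P q.1 q.2))
    {L μ : ℝ}
    (hrat : ∀ E t : ℕ, t < E → ∃ σ, Up (L ^ (E - 1 - t)) σ ∧ σ ≤ L ^ (E + 1 - t) ∧
      Real.sqrt (L ^ (E + 1 - t) / σ) ≤ μ)
    (hL : 1 ≤ L) (hμ : 1 ≤ μ) (hn : L ^ (E + 1) = n) {d : ℕ}
    (hd : μ ^ E * L ^ E * d < ((∑ i, w i : ℕ) : ℝ)) : EmptyAt w P d := by
  have h1 : IsAlgClosed (algebraicClosure (⊥ : Subfield k) k) :=
    (algebraicClosure.isAlgClosure (⊥ : Subfield k) k).1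
  have h2 : Infinite (algebraicClosure (⊥ : Subfield k) k) := IsAlgClosed.instInfinite
  exact emptyAt_of_full (K := algebraicClosure (⊥ : Subfield k) k)
    (full_main (base_pts w) hrat hL hμ hn hd) hP.algebraicClosure

end prime

end Pool.Agent.H519R3.AC
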